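import Pool.Agent.Work.MP_35c45d_lc.DH.Prod

/-! A nearly cubic lower bound for the border determinantal complexity of the permanent and of
all its nonzero multiples, for matrices of polynomials of any degree. -/

set_option autoImplicit false

namespace Pool.Agent.Results.MP_35c45d_lc.BorderDCMultiples

open Filter Topology

/-- For every `ε > 0` there is `c > 0` such that for all `m, d ≥ 1` and all `R`: if a nonzero
multiple `F` of the `m × m` permanent over the complex numbers is a coefficientwise limit of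
determinants of square matrices `A₀ + P K` (of any sizes), `A₀` complex, `P` and `K` matrices of
polynomials of total degree at most `d`, `P` with `R` columns and `K` with `R` rows, then
`d * R + (d - 1) * m ^ 2 ≥ c * m ^ (3 - ε)`. -/
theorem result (ε : ℝ) (hε : 0 < ε) : ∃ c : ℝ, 0 < c ∧ ∀ m d R : ℕ, 1 ≤ m → 1 ≤ d →
    ∀ (N : ℕ → ℕ) (A : ∀ s, Matrix (Fin (N s)) (Fin (N s)) (MvPolynomial (Fin m × Fin m) ℂ))
      (F : MvPolynomial (Fin m × Fin m) ℂ),
      (∀ s, ∃ (A₀ : Fin (N s) → Fin (N s) → ℂ)
        (P : Fin (N s) → Fin R → MvPolynomial (Fin m × Fin m) ℂ)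
        (K : Fin R → Fin (N s) → MvPolynomial (Fin m × Fin m) ℂ),
        (∀ i r, (P i r).totalDegree ≤ d) ∧ (∀ r j, (K r j).totalDegree ≤ d) ∧
        ∀ i j, A s i j = MvPolynomial.C (A₀ i j) + ∑ r, P i r * K r j) →
      (∀ e, Tendsto (fun s => MvPolynomial.coeff e (A s).det) atTop
        (𝓝 (MvPolynomial.coeff e F))) →
      F ≠ 0 →
      (Matrix.of (fun i j : Fin m =>
        (MvPolynomial.X (i, j) : MvPolynomial (Fin m × Fin m) ℂ))).permanent ∣ F →
      c * (m : ℝ) ^ (3 - ε) ≤ d * R + (d - 1) * (m : ℝ) ^ 2 :=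
  Pool.Agent.Work.MP_35c45d_lc.DH.main_prod ε hε

end Pool.Agent.Results.MP_35c45d_lc.BorderDCMultiples
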