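import Pool.Agent.Work.MP_35c45d_lc.LOFinal

/-! The permanent is not, even locally and up to multiples and limits, a sum of few functions of few
small determinants. -/

set_option autoImplicit false

namespace Pool.Agent.Results.MP_35c45d_lc.FunctionsOfDeterminants

open MvPolynomial Filter Topology

/-- For every `ε > 0` there is `κ > 0` such that for all `m ≥ 1` and all `c, n, M`: let `P` be a complex
`m × m` matrix and `g ≠ 0` a polynomial in the entries of the `m × m` matrix `X` of variables. If the
polynomial `g(X) perm(P + X)` is, coefficient by coefficient, the limit of a sequence of formal power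
series in `X`, each a sum of `M` arbitrary formal power series in `D 1 - D 1 (0), …, D c - D c (0)`,
where `D a` is the determinant of an `n × n` matrix of polynomials of degree at most `1` in `X`, then,
with `L = log (M + 1)`,

`κ m ^ (2 - ε) ≤ c L + n √c L √L + min (n, L) L ^ 2`. -/
theorem result (ε : ℝ) (hε : 0 < ε) : ∃ κ : ℝ, 0 < κ ∧ ∀ m c n M : ℕ, 1 ≤ m →
    ∀ (P : Matrix (Fin m) (Fin m) ℂ) (g : MvPolynomial (Fin m × Fin m) ℂ)
      (Ψ : ℕ → Fin M → MvPowerSeries (Fin c) ℂ)
      (A : ℕ → Fin M → Fin c → Matrix (Fin n) (Fin n) (MvPolynomial (Fin m × Fin m) ℂ)),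
      g ≠ 0 → (∀ s t a i j, (A s t a i j).totalDegree ≤ 1) →
      (∀ d, Tendsto (fun s => MvPowerSeries.coeff d (∑ t, MvPowerSeries.subst
          (fun a => (((A s t a).det - C (constantCoeff (A s t a).det) :
            MvPolynomial (Fin m × Fin m) ℂ) : MvPowerSeries (Fin m × Fin m) ℂ)) (Ψ s t))) atTop
        (𝓝 (coeff d (g * (Matrix.of fun i j : Fin m => (X (i, j) + C (P i j) :
          MvPolynomial (Fin m × Fin m) ℂ)).permanent)))) →
      κ * (m : ℝ) ^ (2 - ε) ≤ c * Real.log (M + 1) +
        n * √c * (Real.log (M + 1) * √(Real.log (M + 1))) +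
        min (n : ℝ) (Real.log (M + 1)) * Real.log (M + 1) ^ 2 :=
  Pool.Agent.Work.MP_35c45d_lc.LO.pow_main ε hε

end Pool.Agent.Results.MP_35c45d_lc.FunctionsOfDeterminants
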