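import Pool.Agent.Work.MP_35c45d_lc.SMMainK

/-! An exponential lower bound for sums of determinants computing a multiple of the permanent. -/

set_option autoImplicit false

namespace Pool.Agent.Results.MP_35c45d_lc.SumsOfDeterminants

open Filter Topology

/-- For every `ε > 0` there is `c > 0` such that for all `m, δ ≥ 1` and all `n`, `M`: if a nonzero
multiple `g * perm` of the `m × m` permanent over the complex numbers is a coefficientwise limit of
sums of `M` determinants of square matrices of any sizes `N s t`, whose entries are polynomials of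
degree at most `δ` and in which the sum over the rows of the maximal degree of the entries of the
row is at most `n`, then `(n + m * δ) ^ (1 + ε) * log (M + 1) ≥ c * m ^ (2 + ε)`. -/
theorem result (ε : ℝ) (hε : 0 < ε) : ∃ c : ℝ, 0 < c ∧ ∀ m δ n M : ℕ, 1 ≤ m → 1 ≤ δ →
    ∀ g : MvPolynomial (Fin m × Fin m) ℂ, g ≠ 0 →
    ∀ (N : ℕ → Fin M → ℕ)
      (A : ∀ s t, Matrix (Fin (N s t)) (Fin (N s t)) (MvPolynomial (Fin m × Fin m) ℂ)),
      (∀ s t i j, (A s t i j).totalDegree ≤ δ) →
      (∀ s t, ∑ i, Finset.univ.sup (fun j => (A s t i j).totalDegree) ≤ n) →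
      (∀ d, Tendsto (fun s => MvPolynomial.coeff d (∑ t, (A s t).det)) atTop
        (𝓝 (MvPolynomial.coeff d (g * (Matrix.of (fun i j : Fin m =>
          (MvPolynomial.X (i, j) : MvPolynomial (Fin m × Fin m) ℂ))).permanent)))) →
      c * (m : ℝ) ^ (2 + ε) ≤ ((n : ℝ) + m * δ) ^ (1 + ε) * Real.log (M + 1) := by
  obtain ⟨c, hc, h⟩ := Pool.Agent.Work.MP_35c45d_lc.SM.mainK ε hε
  exact ⟨c, hc, fun m δ n M hm hδ g hg N A hA hn hlim =>
    h m n δ M hm hδ g hg ⟨N, A, hA, hn, hlim⟩⟩

end Pool.Agent.Results.MP_35c45d_lc.SumsOfDeterminants
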