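import Pool.Agent.Work.MP_35c45d_lc.SAMultMain
import Pool.Agent.Work.MP_35c45d_lc.SFDiag

/-! The permanent is not a sum of few determinants, of any sizes, in which the variables occur
fewer than `m ^ (5 / 2 - ε)` times. -/

set_option autoImplicit false

namespace Pool.Agent.Results.MP_35c45d_lc.TotalReads

open Filter Topology

/-- Let `m ≥ 1` and let `g` be a nonzero polynomial in `m ^ 2` variables. If `g(X) * perm(X)`,
`X = (x_ij)` an `m × m` matrix, is the pointwise limit of a sequence of sums of `M` determinants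
`det (A + ∑ x_ij B_ij)` of complex matrices `A`, `B_ij` of any sizes with `∑ rank B_ij ≤ s`, then
`m ^ 5 ≤ 10 ^ 12 * (s + m ^ 2) ^ 2 * (1 + log m) ^ 3 * log (M + 1)`. -/
theorem result (m M s : ℕ) (hm : 1 ≤ m) (g : MvPolynomial (Fin m × Fin m) ℂ) (hg : g ≠ 0)
    (N : ℕ → Fin M → ℕ)
    (A : (k : ℕ) → (t : Fin M) → Matrix (Fin (N k t)) (Fin (N k t)) ℂ)
    (B : (k : ℕ) → (t : Fin M) → Fin m × Fin m → Matrix (Fin (N k t)) (Fin (N k t)) ℂ)
    (hB : ∀ k t, ∑ q, (B k t q).rank ≤ s)
    (hlim : ∀ X : Fin m × Fin m → ℂ,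
      Tendsto (fun k => ∑ t, (A k t + ∑ q, X q • B k t q).det) atTop
        (𝓝 (MvPolynomial.eval X g * (Matrix.of fun i j => X (i, j)).permanent))) :
    (m : ℝ) ^ 5 ≤ 10 ^ 12 * ((s : ℝ) + m ^ 2) ^ 2 * (1 + Real.log m) ^ 3 * Real.log (M + 1) := by
  refine Pool.Agent.Work.MP_35c45d_lc.SA.total_mainM hm hg ⟨N, A, B, hB, fun d => ?_⟩
  refine Pool.Agent.Work.MP_35c45d_lc.SF.coeff_tendsto_of_eval
    (max s (g * Pool.Agent.Work.MP_35c45d_lc.SD.permP m).totalDegree) _ _ (fun k => ?_)
    (le_max_right _ _) (fun X => ?_) d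
  · refine (MvPolynomial.totalDegree_finsetSum_le fun t _ => ?_).trans (le_max_left _ _)
    exact (Pool.Agent.Work.MP_35c45d_lc.SA.totalDegree_det_affG_le (A k t) (B k t)).trans (hB k t)
  · have h1 : ∀ k, MvPolynomial.eval X (∑ t,
        (Pool.Agent.Work.MP_35c45d_lc.SD.affM (A k t) (B k t)).det) =
        ∑ t, (A k t + ∑ q, X q • B k t q).det := by
      intro k
      rw [map_sum]
      exact Finset.sum_congr rfl fun t _ =>
        Pool.Agent.Work.MP_35c45d_lc.SF.eval_affM (A k t) (B k t) X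
    have h2 : MvPolynomial.eval X (g * Pool.Agent.Work.MP_35c45d_lc.SD.permP m) =
        MvPolynomial.eval X g * (Matrix.of fun i j => X (i, j)).permanent := by
      rw [map_mul]
      congr 1
      unfold Pool.Agent.Work.MP_35c45d_lc.SD.permP Matrix.permanent
      rw [map_sum]
      refine Finset.sum_congr rfl fun σ _ => ?_
      rw [map_prod]
      refine Finset.prod_congr rfl fun i _ => ?_
      simp only [Matrix.of_apply, MvPolynomial.eval_X]
    simp only [h1]
    rw [h2]
    exact hlim X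

end Pool.Agent.Results.MP_35c45d_lc.TotalReads
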